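import Pool.Agent.R772.CC2

/-!
# Invariant families of convex sets on closed affine manifolds: fixed point arguments
-/

set_option autoImplicit false

open Set Filter Topology Metric

namespace Pool.Agent.L5helper76.CF

open Pool.Agent.W689.Ch Pool.Agent.TH845.Mk Pool.Agent.Y150.Ch Pool.Agent.R772.CC
open Pool.Agent.W689.Mk (lin hol_add hol_sub hol_inv_apply hol_apply_inv lin_inv_apply lin_mul
  lin_smul hol_cont)

variable {X Γ E : Type} [TopologicalSpace X] [T2Space X] [Group Γ] [MulAction Γ X]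
  [NormedAddCommGroup E] [NormedSpace ℝ E] [FiniteDimensional ℝ E]
  {dev : X → E} {hol : Γ →* (E ≃ᵃ[ℝ] E)} {K : Subgroup Γ} {H : AffineSubspace ℝ E} {x₀ : X}

/-- The data: a subgroup `K` of finite index, a `K`-invariant affine subspace `H` which meets the
developing image, without fields. -/
structure NoFld (dev : X → E) (hol : Γ →* (E ≃ᵃ[ℝ] E)) (K : Subgroup Γ) (H : AffineSubspace ℝ E)
    (x₀ : X) : Prop where
  fin : K.FiniteIndex
  mem : dev x₀ ∈ H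
  inv : ∀ γ ∈ K, ∀ q ∈ H, hol γ q ∈ H
  fld : ¬ Fld dev (hol.comp K.subtype) H

omit [T2Space X] [FiniteDimensional ℝ E] in
theorem NoFld.of_min {G : Subgroup Γ} (m : Min dev hol G H x₀) (hKG : K ≤ G)
    (hK : K.FiniteIndex) : NoFld dev hol K H x₀ :=
  ⟨hK, m.mem, fun γ hγ => m.inv γ (hKG hγ), m.fld K hKG hK⟩

/-- equivariant maps with convex values and open lower sections have fixed points -/
theorem map_gen (D : AffMfd X Γ E dev hol) (m : NoFld dev hol K H x₀) {Φ : X → Set E}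
    (hne : ∀ x, dev x ∈ H → (Φ x).Nonempty) (hc : ∀ x, dev x ∈ H → Convex ℝ (Φ x))
    (hH : ∀ x, dev x ∈ H → Φ x ⊆ H)
    (hi : ∀ γ ∈ K, ∀ x, dev x ∈ H → ∀ y ∈ Φ x, hol γ y ∈ Φ (γ • x))
    (ho : ∀ x, dev x ∈ H → ∀ y ∈ Φ x, ∀ᶠ x' in 𝓝 x, dev x' ∈ H → y ∈ Φ x') :
    ∃ x, dev x ∈ H ∧ dev x ∈ Φ x := by
  by_contra hcon
  push Not at hcon
  have hK := m.fin
  have hinvH : ∀ (γ : K), ∀ q ∈ H, (hol.comp K.subtype) γ q ∈ H :=
    fun γ q hq => m.inv γ.1 γ.2 q hq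
  refine m.fld (fld_of_sub (restr D K hK) m.mem hinvH ?_)
  let _ := subAct (restr D K hK) hinvH
  have D' := subMfd (restr D K hK) m.mem hinvH
  refine field_of_map D' (Φ := fun x => {v : H.direction | dev x₀ + v.1 ∈ Φ x.1}) ?_ ?_ ?_ ?_ ?_
  · rintro ⟨x, hx⟩
    obtain ⟨y, hy⟩ := hne x hx
    refine ⟨⟨y - dev x₀, sub_mem_dir m.mem (hH x hx hy)⟩, ?_⟩
    show dev x₀ + (y - dev x₀) ∈ Φ x
    rwa [add_sub_cancel]
  · rintro ⟨x, hx⟩
    exact conv_pull (hc x hx) _ _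
  · rintro γ ⟨x, hx⟩ v hv
    show dev x₀ + (hol γ.1 (dev x₀ + v.1) - dev x₀) ∈ Φ (γ.1 • x)
    rw [add_sub_cancel]
    exact hi γ.1 γ.2 x hx _ hv
  · rintro ⟨x, hx⟩ v hv
    have h1 := ho x hx _ hv
    have h2 : Tendsto (Subtype.val : {x : X // dev x ∈ H} → X) (𝓝 ⟨x, hx⟩) (𝓝 x) :=
      continuous_subtype_val.continuousAt
    filter_upwards [h2.eventually h1] with x' hx'
    exact hx' x'.2
  · rintro ⟨x, hx⟩ hv
    have h1 : dev x₀ + (dev x - dev x₀) ∈ Φ x := hv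
    rw [add_sub_cancel] at h1
    exact hcon x hx h1

omit [T2Space X] [FiniteDimensional ℝ E] in
/-- finitely many group elements only move `x` into compact sets -/
theorem fin_hit (D : AffMfd X Γ E dev hol) {P : Set X} (hP : IsCompact P) {N : Set X}
    (hN : IsCompact N) : {γ : Γ | ∃ x ∈ N, γ • x ∈ P}.Finite := by
  refine (D.pd (P ∪ N) (hP.union hN)).subset ?_
  rintro γ ⟨x, hx, hγ⟩
  exact ⟨x, Or.inr hx, Or.inl hγ⟩

/-- the sets of `x` with `y ∈ Φ x` are open -/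
theorem ev_hit (D : AffMfd X Γ E dev hol) {ι : Type} [Finite ι] {P : ι → Set X}
    (hP : ∀ i, IsCompact (P i)) (x : X) :
    ∀ᶠ x' in 𝓝 x, ∀ (i : ι) (γ : Γ), γ • x' ∈ P i → γ • x ∈ P i := by
  obtain ⟨N, hN, hNc⟩ := exists_cpt_nhd D x
  rw [eventually_all]
  intro i
  have hF := fin_hit D (hP i) hNc
  have h1 : ∀ᶠ x' in 𝓝 x, ∀ γ ∈ {γ : Γ | ∃ x ∈ N, γ • x ∈ P i}, γ • x' ∈ P i → γ • x ∈ P i := by
    rw [eventually_all_finite hF]
    intro γ _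
    by_cases h : γ • x ∈ P i
    · exact Eventually.of_forall fun _ _ => h
    · have h2 : ∀ᶠ x' in 𝓝 x, γ • x' ∈ (P i)ᶜ :=
        (D.cont γ).continuousAt.eventually_mem ((hP i).isClosed.isOpen_compl.mem_nhds h)
      filter_upwards [h2] with x' hx' h3
      exact absurd h3 hx'
  filter_upwards [h1, hN] with x' hx' hxN γ hγ
  exact hx' γ ⟨x', hxN, hγ⟩ hγ

/-- The local principle: finitely many compact sets `P i` the translates of which cover, convex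
sets `C i` disjoint from `dev (P i)`; then at some point `x` the translates of the `C i` with
`γ • x ∈ P i` have no common point. -/
theorem principle (D : AffMfd X Γ E dev hol) (m : NoFld dev hol K H x₀) {ι : Type} [Finite ι]
    {P : ι → Set X} (hP : ∀ i, IsCompact (P i))
    (hcov : ∀ x, dev x ∈ H → ∃ γ ∈ K, ∃ i, γ • x ∈ P i)
    {C : ι → Set E} (hC : ∀ i, Convex ℝ (C i)) (hd : ∀ i, ∀ x ∈ P i, dev x ∈ H → dev x ∉ C i) :
    ∃ x, dev x ∈ H ∧ ∀ y ∈ H, ∃ i, ∃ γ ∈ K, γ • x ∈ P i ∧ hol γ y ∉ C i := by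
  by_contra hcon
  push Not at hcon
  have key := map_gen D m
    (Φ := fun x => {y | y ∈ H ∧ ∀ i, ∀ γ ∈ K, γ • x ∈ P i → hol γ y ∈ C i}) ?_ ?_ ?_ ?_ ?_
  · obtain ⟨x, hx, hxΦ⟩ := key
    obtain ⟨γ, hγ, i, hi⟩ := hcov x hx
    have h1 := hxΦ.2 i γ hγ hi
    rw [← D.equi] at h1
    refine hd i _ hi ?_ h1
    rw [D.equi]
    exact m.inv γ hγ _ hx
  · intro x hx
    obtain ⟨y, hy, h⟩ := hcon x hx
    exact ⟨y, hy, fun i γ hγ hi => h i γ hγ hi⟩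
  · intro x hx p hp q hq a b ha hb hab
    refine ⟨H.convex hp.1 hq.1 ha hb hab, fun i γ hγ hi => ?_⟩
    have h1 := hC i (hp.2 i γ hγ hi) (hq.2 i γ hγ hi) ha hb hab
    have h2 : hol γ (a • p + b • q) = a • hol γ p + b • hol γ q := hol_combo γ hab p q
    rw [h2]
    exact h1
  · rintro x _ y ⟨hyH, -⟩
    exact hyH
  · rintro γ hγ x hx y ⟨hyH, hy⟩
    refine ⟨m.inv γ hγ y hyH, fun i δ hδ hi => ?_⟩
    rw [← mul_smul] at hi
    have h1 := hy i (δ * γ) (K.mul_mem hδ hγ) hi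
    rwa [map_mul] at h1
  · rintro x hx y ⟨hyH, hy⟩
    filter_upwards [ev_hit D hP x] with x' hx' _
    exact ⟨hyH, fun i γ hγ hi => hy i γ hγ (hx' i γ hi)⟩

omit [T2Space X] [FiniteDimensional ℝ E] in
/-- a compact set the translates of which cover -/
theorem exists_cov (D : AffMfd X Γ E dev hol) (hK : K.FiniteIndex) :
    ∃ P : Set X, IsCompact P ∧ ∀ x, ∃ γ ∈ K, γ • x ∈ P := by
  obtain ⟨P, hP, hcov⟩ := (restr D K hK).cc
  refine ⟨P, hP, fun x => ?_⟩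
  obtain ⟨γ, k, hk, h⟩ := hcov x
  refine ⟨(γ⁻¹ : K), (γ⁻¹).2, ?_⟩
  have h1 : (γ⁻¹ : K) • x = k := by rw [← h, inv_smul_smul]
  have h2 : ((γ⁻¹ : K) : Γ) • x = k := h1
  rw [h2]
  exact hk

/-- **Finite surrounding.** -/
theorem surround (D : AffMfd X Γ E dev hol) (m : NoFld dev hol K H x₀) {P : Set X}
    (hP : IsCompact P) (hcov : ∀ x, dev x ∈ H → ∃ γ ∈ K, γ • x ∈ P) {q : E} (hq : q ∈ H) :
    ∃ x ∈ P, dev x ∈ H ∧ dev x ∈ convexHull ℝ
      {y | ∃ γ ∈ K, (∃ z ∈ P, dev z ∈ H ∧ γ • z ∈ P) ∧ hol γ q = y} := by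
  by_contra hcon
  push Not at hcon
  obtain ⟨x, hx, h⟩ := principle D m (ι := Unit) (P := fun _ => P) (fun _ => hP)
    (fun x hx => by
      obtain ⟨γ, hγ, h⟩ := hcov x hx
      exact ⟨γ, hγ, (), h⟩)
    (C := fun _ => convexHull ℝ {y | ∃ γ ∈ K, (∃ z ∈ P, dev z ∈ H ∧ γ • z ∈ P) ∧ hol γ q = y})
    (fun _ => convex_convexHull ℝ _) (fun _ x hx hxH => hcon x hx hxH)
  obtain ⟨δ, hδ, hδx⟩ := hcov x hx
  obtain ⟨-, γ, hγ, h1, h2⟩ := h (hol δ⁻¹ q) (m.inv _ (K.inv_mem hδ) _ hq)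
  apply h2
  apply subset_convexHull
  refine ⟨γ * δ⁻¹, K.mul_mem hγ (K.inv_mem hδ), ⟨δ • x, hδx, ?_, ?_⟩, ?_⟩
  · rw [D.equi]
    exact m.inv δ hδ _ hx
  · rwa [mul_smul, inv_smul_smul]
  · rw [map_mul]
    rfl

/-- **Common points.** A `K`-invariant family of closed convex subsets of `H` with the finite
intersection property has a common point in the developing image. -/
theorem common (D : AffMfd X Γ E dev hol) (m : NoFld dev hol K H x₀) {𝓕 : Set (Set E)}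
    (hconv : ∀ C ∈ 𝓕, Convex ℝ C) (hcl : ∀ C ∈ 𝓕, IsClosed C)
    (hinv : ∀ γ ∈ K, ∀ C ∈ 𝓕, hol γ '' C ∈ 𝓕)
    (hfip : ∀ s : Finset (Set E), ↑s ⊆ 𝓕 → ∃ y ∈ H, ∀ C ∈ s, y ∈ C) :
    ∃ x, dev x ∈ H ∧ ∀ C ∈ 𝓕, dev x ∈ C := by
  classical
  by_contra hcon
  push Not at hcon
  have := locComp D
  have hHc : IsClosed (H : Set E) := H.closed_of_finiteDimensional
  -- for every point a compact neighbourhood and a member of the family
  have key : ∀ x : X, dev x ∈ H → ∃ N : Set X, ∃ C ∈ 𝓕, IsCompact N ∧ N ∈ 𝓝 x ∧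
      ∀ z ∈ N, dev z ∉ C := by
    intro x hx
    obtain ⟨C, hC, hxC⟩ := hcon x hx
    have h1 : dev ⁻¹' Cᶜ ∈ 𝓝 x :=
      D.loc.continuous.continuousAt.preimage_mem_nhds ((hcl C hC).isOpen_compl.mem_nhds hxC)
    obtain ⟨N, hN, hN2, hN3⟩ := LocallyCompactSpace.local_compact_nhds x _ h1
    exact ⟨N, C, hC, hN3, hN, fun z hz => hN2 hz⟩
  choose! N C hC hNc hN hNC using key
  obtain ⟨P₀, hP₀, hcov⟩ := exists_cov D m.fin
  have hP₁ : IsCompact (P₀ ∩ {x | dev x ∈ H}) :=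
    hP₀.inter_right (hHc.preimage D.loc.continuous)
  obtain ⟨t, ht1, ht2⟩ := hP₁.elim_nhds_subcover N fun x hx => hN x hx.2
  obtain ⟨x, hx, h⟩ := principle D m (ι := t) (P := fun i => N i.1)
    (fun i => hNc _ (ht1 i.1 i.2).2)
    (fun x hx => by
      obtain ⟨γ, hγ, h⟩ := hcov x
      have h2 : dev (γ • x) ∈ H := by
        rw [D.equi]; exact m.inv γ hγ _ hx
      obtain ⟨i, hi, h3⟩ := mem_iUnion₂.1 (ht2 ⟨h, h2⟩)
      exact ⟨γ, hγ, ⟨i, hi⟩, h3⟩)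
    (C := fun i => C i.1) (fun i => hconv _ (hC _ (ht1 i.1 i.2).2))
    (fun i z hz _ => hNC _ (ht1 i.1 i.2).2 z hz)
  -- finitely many members occur
  have hfin : ∀ i : t, {γ : Γ | γ • x ∈ N i.1}.Finite := fun i =>
    (fin_hit D (hNc _ (ht1 i.1 i.2).2) (isCompact_singleton (x := x))).subset
      fun γ hγ => ⟨x, rfl, hγ⟩
  have hfin2 : (⋃ i : t, (fun γ : Γ => hol γ⁻¹ '' C i.1) '' {γ : Γ | γ ∈ K ∧ γ • x ∈ N i.1}).Finite
      := finite_iUnion fun i => ((hfin i).subset fun γ hγ => hγ.2).image _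
  obtain ⟨y, hy, hyC⟩ := hfip hfin2.toFinset (by
    intro S hS
    rw [Set.Finite.coe_toFinset, mem_iUnion] at hS
    obtain ⟨i, γ, ⟨hγ, -⟩, rfl⟩ := hS
    exact hinv _ (K.inv_mem hγ) _ (hC _ (ht1 i.1 i.2).2))
  obtain ⟨i, γ, hγ, h1, h2⟩ := h y hy
  apply h2
  have h3 := hyC (hol γ⁻¹ '' C i.1) (by
    rw [Set.Finite.mem_toFinset, mem_iUnion]
    exact ⟨i, γ, ⟨hγ, h1⟩, rfl⟩)
  obtain ⟨c, hc, rfl⟩ := h3
  rw [hol_apply_inv]
  exact hc

end Pool.Agent.L5helper76.CF
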