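import Pool.Agent.L5helper76.CF.A

/-!
# Invariant families of convex subsets of the core
-/

set_option autoImplicit false

open Set Filter Topology Metric

namespace Pool.Agent.L5helper76.CF

open Pool.Agent.W689.Ch Pool.Agent.TH845.Mk Pool.Agent.Y150.Ch Pool.Agent.R772.CC
open Pool.Agent.W689.Mk (lin hol_add hol_sub hol_inv_apply hol_apply_inv lin_inv_apply lin_mul
  lin_smul hol_cont)

variable {X Γ E : Type} [TopologicalSpace X] [T2Space X] [Group Γ] [MulAction Γ X]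
  [NormedAddCommGroup E] [NormedSpace ℝ E] [FiniteDimensional ℝ E]
  {dev : X → E} {hol : Γ →* (E ≃ᵃ[ℝ] E)} {K G : Subgroup Γ} {H : AffineSubspace ℝ E} {x₀ : X}

omit [TopologicalSpace X] [T2Space X] in
/-- a convex subset of `H` which is dense in `H` is `H` -/
theorem dense_H (hp : dev x₀ ∈ H) {C : Set E} (hC : Convex ℝ C) (hCH : C ⊆ H)
    (hd : (H : Set E) ⊆ closure C) : C = H := by
  refine Subset.antisymm hCH ?_
  let f : H.direction → E := fun v => dev x₀ + v.1
  have hf : Topology.IsInducing f :=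
    (Homeomorph.addLeft (dev x₀)).isInducing.comp Topology.IsInducing.subtypeVal
  have h1 : f '' (f ⁻¹' C) = C := by
    rw [image_preimage_eq_inter_range]
    refine inter_eq_left.2 fun c hc => ⟨⟨c - dev x₀, sub_mem_dir hp (hCH hc)⟩, ?_⟩
    show dev x₀ + (c - dev x₀) = c
    rw [add_sub_cancel]
  have h2 : closure (f ⁻¹' C) = univ := by
    rw [hf.closure_eq_preimage_closure_image, h1]
    exact eq_univ_of_forall fun v => hd (add_mem_H hp v)
  have h3 : f ⁻¹' C = univ := convex_dense (conv_pull hC _ _) h2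
  intro q hq
  have h4 : (⟨q - dev x₀, sub_mem_dir hp hq⟩ : H.direction) ∈ f ⁻¹' C := by rw [h3]; trivial
  have h5 : dev x₀ + (q - dev x₀) ∈ C := h4
  rwa [add_sub_cancel] at h5

/-- **Filters.** A `K`-invariant family of convex subsets of `H` with the finite intersection
property only contains `H`. -/
theorem filter_core (D : AffMfd X Γ E dev hol) (m : Min dev hol G H x₀) (hKG : K ≤ G)
    (hK : K.FiniteIndex) {𝓕 : Set (Set E)} (hconv : ∀ C ∈ 𝓕, Convex ℝ C) (hCH : ∀ C ∈ 𝓕, C ⊆ H)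
    (hinv : ∀ γ ∈ K, ∀ C ∈ 𝓕, hol γ '' C ∈ 𝓕)
    (hfip : ∀ s : Finset (Set E), ↑s ⊆ 𝓕 → ∃ y ∈ H, ∀ C ∈ s, y ∈ C) : ∀ C ∈ 𝓕, C = H := by
  classical
  have himg : ∀ γ : Γ, ∀ C : Set E, hol γ '' closure C = closure (hol γ '' C) :=
    fun γ C => (hm hol γ).image_closure C
  obtain ⟨x₁, hx₁, hx₁C⟩ := common D (NoFld.of_min m hKG hK) (𝓕 := closure '' 𝓕)
    (by rintro _ ⟨C, hC, rfl⟩; exact (hconv C hC).closure)
    (by rintro _ ⟨C, hC, rfl⟩; exact isClosed_closure)
    (by rintro γ hγ _ ⟨C, hC, rfl⟩; exact ⟨_, hinv γ hγ C hC, (himg γ C).symm⟩)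
    (by
      intro s hs
      have h1 : ∀ S ∈ s, ∃ C ∈ 𝓕, closure C = S := fun S hS => hs hS
      choose! c hc hcS using h1
      obtain ⟨y, hy, h⟩ := hfip (s.image c) (by
        intro S hS
        rw [Finset.coe_image] at hS
        obtain ⟨T, hT, rfl⟩ := hS
        exact hc T hT)
      refine ⟨y, hy, fun S hS => ?_⟩
      rw [← hcS S hS]
      exact subset_closure (h _ (Finset.mem_image_of_mem _ hS)))
  intro C₀ hC₀
  have hHc : IsClosed (H : Set E) := H.closed_of_finiteDimensional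
  let S : Set E := {q | ∀ C ∈ 𝓕, q ∈ closure C}
  have hS : S = H := by
    refine m.star K hKG hK S (dev x₁) (fun C hC => hx₁C _ ⟨C, hC, rfl⟩) ?_ ?_ ?_
    · exact fun q hq => closure_minimal (hCH C₀ hC₀) hHc (hq C₀ hC₀)
    · intro q hq a b ha hb hab C hC
      exact (hconv C hC).closure (hx₁C _ ⟨C, hC, rfl⟩) (hq C hC) ha hb hab
    · intro γ hγ q hq C hC
      have h1 := hq _ (hinv γ⁻¹ (K.inv_mem hγ) C hC)
      rw [← himg] at h1
      obtain ⟨c, hc, rfl⟩ := h1
      rwa [hol_apply_inv]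
  refine dense_H m.mem (hconv C₀ hC₀) (hCH C₀ hC₀) ?_
  rw [← hS]
  exact fun q hq => hq C₀ hC₀

/-- **Empty intersections.** Every proper convex subset of `H` has `dim H + 1` images without
common point. -/
theorem helly_core (D : AffMfd X Γ E dev hol) (m : Min dev hol G H x₀) (hKG : K ≤ G)
    (hK : K.FiniteIndex) {C : Set E} (hC : Convex ℝ C) (hCH : C ⊆ H) (hne : C ≠ H) :
    ∃ g : Fin (Module.finrank ℝ H.direction + 1) → Γ, (∀ i, g i ∈ K) ∧
      ∀ p ∈ H, ∃ i, hol (g i) p ∉ C := by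
  classical
  by_contra hcon
  push Not at hcon
  apply hne
  refine filter_core D m hKG hK (𝓕 := {S | ∃ γ ∈ K, hol γ '' C = S}) ?_ ?_ ?_ ?_ C
    ⟨1, K.one_mem, by
      rw [map_one]
      exact image_id C⟩
  · rintro _ ⟨γ, -, rfl⟩
    exact hC.affine_image (hol γ : E →ᵃ[ℝ] E)
  · rintro _ ⟨γ, hγ, rfl⟩ _ ⟨q, hq, rfl⟩
    exact m.inv γ (hKG hγ) q (hCH hq)
  · rintro γ hγ _ ⟨δ, hδ, rfl⟩
    refine ⟨γ * δ, K.mul_mem hγ hδ, ?_⟩
    rw [image_image, map_mul]
    rfl
  · intro s hs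
    -- choose the group elements
    have h1 : ∀ S ∈ s, ∃ γ ∈ K, hol γ '' C = S := fun S hS => hs hS
    choose! c hcK hcS using h1
    let F : Set E → Set H.direction := fun S => {v | hol (c S)⁻¹ (dev x₀ + v.1) ∈ C}
    have hFc : ∀ S, Convex ℝ (F S) := by
      intro S
      have h2 : Convex ℝ {p : E | hol (c S)⁻¹ p ∈ C} :=
        hC.affine_preimage (hol (c S)⁻¹ : E →ᵃ[ℝ] E)
      exact conv_pull h2 _ _
    obtain ⟨v, hv⟩ := Convex.helly_theorem' (𝕜 := ℝ) (F := F) (s := s) (fun S _ => hFc S) (by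
      intro I hI hcard
      -- enumerate
      let e := I.equivFin
      let g : Fin (Module.finrank ℝ H.direction + 1) → Γ := fun i =>
        if h : i.1 < I.card then (c (e.symm ⟨i.1, h⟩).1)⁻¹ else 1
      obtain ⟨p, hp, hpg⟩ := hcon g (by
        intro i
        show (if h : i.1 < I.card then (c (e.symm ⟨i.1, h⟩).1)⁻¹ else 1) ∈ K
        split_ifs with h
        · exact K.inv_mem (hcK _ (hI (e.symm ⟨i.1, h⟩).2))
        · exact K.one_mem)
      refine ⟨⟨p - dev x₀, sub_mem_dir m.mem hp⟩, ?_⟩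
      rw [mem_iInter₂]
      intro S hS
      show hol (c S)⁻¹ (dev x₀ + (p - dev x₀)) ∈ C
      rw [add_sub_cancel]
      let j := e ⟨S, hS⟩
      have hj : j.1 < Module.finrank ℝ H.direction + 1 := lt_of_lt_of_le j.2 hcard
      have h3 := hpg ⟨j.1, hj⟩
      have h4 : g ⟨j.1, hj⟩ = (c S)⁻¹ := by
        show (if h : j.1 < I.card then (c (e.symm ⟨j.1, h⟩).1)⁻¹ else 1) = _
        rw [dif_pos j.2]
        have h5 : e.symm ⟨j.1, j.2⟩ = ⟨S, hS⟩ := e.symm_apply_apply _
        rw [h5]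
      rwa [h4] at h3)
    refine ⟨dev x₀ + v.1, add_mem_H m.mem v, fun S hS => ?_⟩
    rw [mem_iInter₂] at hv
    have h2 : hol (c S)⁻¹ (dev x₀ + v.1) ∈ C := hv S hS
    rw [← hcS S hS]
    exact ⟨_, h2, hol_apply_inv _ _⟩

omit [FiniteDimensional ℝ E] in
/-- affine functions on `H` which are bounded below are constant -/
theorem aff_const {g : E →ᵃ[ℝ] ℝ} {u : ℝ} (h : ∀ p ∈ H, u ≤ g p) :
    ∀ p ∈ H, ∀ q ∈ H, g p = g q := by
  intro p hp q hq
  by_contra hne
  have h1 : g q - g p ≠ 0 := sub_ne_zero.2 (Ne.symm hne)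
  have h2 := h _ (AffineMap.lineMap_mem ((u - 1 - g p) / (g q - g p)) hp hq)
  rw [AffineMap.apply_lineMap, AffineMap.lineMap_apply] at h2
  simp only [vsub_eq_sub, smul_eq_mul, vadd_eq_add] at h2
  rw [div_mul_cancel₀ _ h1] at h2
  linarith

/-- **Large constants** are convex combinations of the images of a non-constant affine function -/
theorem const_ge (D : AffMfd X Γ E dev hol) (m : Min dev hol G H x₀) (hKG : K ≤ G)
    (hK : K.FiniteIndex) {f : E →ᵃ[ℝ] ℝ} (hf : ¬ ∀ p ∈ H, ∀ q ∈ H, f p = f q) (T : ℝ) :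
    ∃ c, T ≤ c ∧ ∃ g ∈ convexHull ℝ {g : E → ℝ | ∃ γ ∈ K, (fun p => f (hol γ p)) = g},
      ∀ p ∈ H, g p = c := by
  classical
  have hCc : Convex ℝ {p | p ∈ H ∧ f p ≤ T} := by
    intro p hp q hq a b ha hb hab
    refine ⟨H.convex hp.1 hq.1 ha hb hab, ?_⟩
    rw [Convex.combo_affine_apply hab]
    simp only [smul_eq_mul]
    have h1 := mul_le_mul_of_nonneg_left hp.2 ha
    have h2 := mul_le_mul_of_nonneg_left hq.2 hb
    have h3 : a * T + b * T = T := by rw [← add_mul, hab, one_mul]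
    linarith
  have hCne : {p | p ∈ H ∧ f p ≤ T} ≠ (H : Set E) := by
    intro h
    apply hf
    have h1 : ∀ p ∈ H, -T ≤ (-f) p := by
      intro p hp
      have h2 : p ∈ {p | p ∈ H ∧ f p ≤ T} := by rw [h]; exact hp
      show -T ≤ -(f p)
      linarith [h2.2]
    intro p hp q hq
    have h3 := aff_const h1 p hp q hq
    have h4 : -(f p) = -(f q) := h3
    linarith
  obtain ⟨n, g, hgK, hg⟩ : ∃ n : ℕ, ∃ g : Fin n → Γ, (∀ i, g i ∈ K) ∧ ∀ p ∈ H, ∃ i,
      hol (g i) p ∉ {p | p ∈ H ∧ f p ≤ T} :=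
    ⟨_, helly_core D m hKG hK hCc (fun p hp => hp.1) hCne⟩
  have hg' : ∀ p ∈ H, ∃ i, T < f (hol (g i) p) := by
    intro p hp
    obtain ⟨i, hi⟩ := hg p hp
    refine ⟨i, ?_⟩
    by_contra h
    exact hi ⟨m.inv _ (hKG (hgK i)) p hp, not_lt.1 h⟩
  -- the two disjoint convex sets in `ℝ ^ n`
  let A : Set (Fin n → ℝ) := {a | ∃ p ∈ H, ∀ i, a i = f (hol (g i) p)}
  let Q : Set (Fin n → ℝ) := {q | ∀ i, q i < T}
  have hAc : Convex ℝ A := by
    rintro a ⟨p, hp, hap⟩ b ⟨q, hq, hbq⟩ s t hs ht hst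
    refine ⟨s • p + t • q, H.convex hp hq hs ht hst, fun i => ?_⟩
    rw [hol_combo (g i) hst, Convex.combo_affine_apply hst, ← hap, ← hbq]
    rfl
  have hQc : Convex ℝ Q := by
    intro a ha b hb s t hs ht hst i
    show s * a i + t * b i < T
    rcases hs.eq_or_lt with h | h
    · have : t = 1 := by linarith
      rw [← h, this, zero_mul, zero_add, one_mul]
      exact hb i
    · have h1 := mul_lt_mul_of_pos_left (ha i) h
      have h2 := mul_le_mul_of_nonneg_left (hb i).le ht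
      have h3 : s * T + t * T = T := by rw [← add_mul, hst, one_mul]
      linarith
  have hQo : IsOpen Q := by
    have : Q = ⋂ i, {q : Fin n → ℝ | q i < T} := by
      ext q
      simp [Q]
    rw [this]
    exact isOpen_iInter_of_finite fun i => isOpen_lt (continuous_apply i) continuous_const
  have hdis : Disjoint Q A := by
    rw [Set.disjoint_left]
    rintro q hq ⟨p, hp, hqp⟩
    obtain ⟨i, hi⟩ := hg' p hp
    have h1 := hq i
    rw [hqp i] at h1
    exact lt_asymm h1 hi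
  obtain ⟨φ, u, hφQ, hφA⟩ := geometric_hahn_banach_open hQc hQo hAc hdis
  let w : Fin n → ℝ := fun i => φ (Pi.single i 1)
  have hφ : ∀ q : Fin n → ℝ, φ q = ∑ i, q i * w i := by
    intro q
    have h1 : q = ∑ i, q i • (Pi.single i (1:ℝ) : Fin n → ℝ) := by
      funext j
      simp [Finset.sum_apply, Pi.single_apply]
    conv_lhs => rw [h1]
    rw [map_sum]
    exact Finset.sum_congr rfl fun i _ => by rw [map_smul]; rfl
  have hw : ∀ i, 0 ≤ w i := by
    intro i
    by_contra hneg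
    push Not at hneg
    let q₀ : Fin n → ℝ := fun _ => T - 1
    have h1 : ∀ s : ℝ, 0 ≤ s → φ q₀ - s * w i < u := by
      intro s hs
      have h2 := hφQ (q₀ - s • (Pi.single i (1:ℝ) : Fin n → ℝ)) (by
        intro j
        show T - 1 - s * (Pi.single i (1:ℝ) : Fin n → ℝ) j < T
        have h3 : 0 ≤ (Pi.single i (1:ℝ) : Fin n → ℝ) j := by
          rw [Pi.single_apply]; split_ifs <;> norm_num
        have h4 := mul_nonneg hs h3
        linarith)
      rw [map_sub, map_smul] at h2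
      exact h2
    have h2 := h1 ((u - φ q₀) / (-(w i))) (by
      apply div_nonneg
      · have := h1 0 le_rfl
        linarith
      · linarith)
    have h3 : (u - φ q₀) / (-(w i)) * w i = -(u - φ q₀) := by
      have h5 : w i ≠ 0 := hneg.ne
      field_simp
    rw [h3] at h2
    linarith
  -- the sum of the weights is positive
  have hx₀ : (fun i => f (hol (g i) (dev x₀))) ∈ A := ⟨dev x₀, m.mem, fun i => rfl⟩
  have hWn : 0 ≤ ∑ i, w i := Finset.sum_nonneg fun i _ => hw i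
  have hTW : ∀ ε > 0, (T - ε) * ∑ i, w i < u := by
    intro ε hε
    have h1 := hφQ (fun _ => T - ε) (fun i => by show T - ε < T; linarith)
    rw [hφ, ← Finset.mul_sum] at h1
    exact h1
  have hWp : 0 < ∑ i, w i := by
    rcases hWn.eq_or_lt with h | h
    · exfalso
      have h1 : ∀ i, w i = 0 := fun i =>
        (Finset.sum_eq_zero_iff_of_nonneg fun i _ => hw i).1 h.symm i (Finset.mem_univ i)
      have h2 := hφA _ hx₀
      rw [hφ] at h2
      simp only [h1, mul_zero, Finset.sum_const_zero] at h2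
      have h3 := hTW 1 one_pos
      rw [← h, mul_zero] at h3
      linarith
    · exact h
  -- the affine function
  let F : E →ᵃ[ℝ] ℝ := ∑ i, w i • (f.comp (hol (g i) : E →ᵃ[ℝ] E))
  have hF : ∀ p, F p = ∑ i, f (hol (g i) p) * w i := by
    intro p
    have h1 : ∀ s : Finset (Fin n), (∑ i ∈ s, w i • (f.comp (hol (g i) : E →ᵃ[ℝ] E))) p =
        ∑ i ∈ s, f (hol (g i) p) * w i := by
      intro s
      induction s using Finset.induction_on with
      | empty => simp
      | insert a s ha ih =>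
        rw [Finset.sum_insert ha, Finset.sum_insert ha, AffineMap.coe_add, Pi.add_apply, ih]
        congr 1
        show w a * f (hol (g a) p) = _
        ring
    exact h1 _
  have hFu : ∀ p ∈ H, u ≤ F p := by
    intro p hp
    have h1 := hφA _ (show (fun i => f (hol (g i) p)) ∈ A from ⟨p, hp, fun i => rfl⟩)
    rw [hφ] at h1
    rw [hF]
    exact h1
  have hFc := aff_const hFu
  have hWinv : ∑ i, w i * (∑ i, w i)⁻¹ = 1 := by
    rw [← Finset.sum_mul, mul_inv_cancel₀ hWp.ne']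
  refine ⟨F (dev x₀) * (∑ i, w i)⁻¹, ?_, ∑ i, (w i * (∑ i, w i)⁻¹) • (fun p => f (hol (g i) p)),
    ?_, ?_⟩
  · rw [← div_eq_mul_inv, le_div_iff₀ hWp]
    refine le_trans ?_ (hFu _ m.mem)
    refine le_of_forall_pos_le_add fun ε hε => ?_
    have h1 := hTW (ε / ∑ i, w i) (div_pos hε hWp)
    rw [sub_mul, div_mul_cancel₀ _ hWp.ne'] at h1
    linarith
  · exact (convex_convexHull ℝ _).sum_mem
      (fun i _ => mul_nonneg (hw i) (inv_nonneg.2 hWp.le)) hWinv
      (fun i _ => subset_convexHull ℝ _ ⟨g i, hgK i, rfl⟩)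
  · intro p hp
    rw [hFc _ m.mem p hp, hF, Finset.sum_mul, Finset.sum_apply]
    refine Finset.sum_congr rfl fun i _ => ?_
    show w i * _ * f (hol (g i) p) = _
    ring

/-- **Constants.** Every real constant is a convex combination of images of a non-constant affine
function. -/
theorem const_core (D : AffMfd X Γ E dev hol) (m : Min dev hol G H x₀) (hKG : K ≤ G)
    (hK : K.FiniteIndex) {f : E →ᵃ[ℝ] ℝ} (hf : ¬ ∀ p ∈ H, ∀ q ∈ H, f p = f q) (c : ℝ) :
    ∃ g ∈ convexHull ℝ {g : E → ℝ | ∃ γ ∈ K, (fun p => f (hol γ p)) = g}, ∀ p ∈ H, g p = c := by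
  obtain ⟨c₁, hc₁, g₁, hg₁, h₁⟩ := const_ge D m hKG hK hf c
  obtain ⟨c₂, hc₂, g₂, hg₂, h₂⟩ := const_ge D m hKG hK (f := -f) (by
    intro h
    apply hf
    intro p hp q hq
    have h1 : -(f p) = -(f q) := h p hp q hq
    linarith) (-c)
  have hg₂' : -g₂ ∈ convexHull ℝ {g : E → ℝ | ∃ γ ∈ K, (fun p => f (hol γ p)) = g} := by
    have h1 : {g : E → ℝ | ∃ γ ∈ K, (fun p => f (hol γ p)) = g} =
        -{g : E → ℝ | ∃ γ ∈ K, (fun p => (-f) (hol γ p)) = g} := by
      ext g
      rw [Set.mem_neg]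
      constructor
      · rintro ⟨γ, hγ, rfl⟩
        exact ⟨γ, hγ, rfl⟩
      · rintro ⟨γ, hγ, h⟩
        refine ⟨γ, hγ, ?_⟩
        have : g = -(-g) := (neg_neg g).symm
        rw [this, ← h]
        funext p
        show f (hol γ p) = -(-(f (hol γ p)))
        rw [neg_neg]
    rw [h1, convexHull_neg, Set.mem_neg, neg_neg]
    exact hg₂
  have hconv := convex_convexHull ℝ {g : E → ℝ | ∃ γ ∈ K, (fun p => f (hol γ p)) = g}
  rcases (by linarith : -c₂ ≤ c₁).eq_or_lt with h | h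
  · refine ⟨g₁, hg₁, fun p hp => ?_⟩
    rw [h₁ p hp]
    linarith
  · have hd : 0 < c₁ + c₂ := by linarith
    refine ⟨((c + c₂) / (c₁ + c₂)) • g₁ + ((c₁ - c) / (c₁ + c₂)) • (-g₂),
      hconv hg₁ hg₂' (div_nonneg (by linarith) hd.le) (div_nonneg (by linarith) hd.le) (by
        field_simp
        ring), fun p hp => ?_⟩
    show (c + c₂) / (c₁ + c₂) * g₁ p + (c₁ - c) / (c₁ + c₂) * (-(g₂ p)) = c
    rw [h₁ p hp, h₂ p hp]
    field_simp
    ring

/-- **Coarse invariance.** A quasi-convex function on `H` whose family of sublevel sets is coarsely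
invariant is constant. -/
theorem coarse_core {L : Type} [LinearOrder L] (D : AffMfd X Γ E dev hol)
    (m : Min dev hol G H x₀) (hKG : K ≤ G) (hK : K.FiniteIndex) {F : E → L}
    (hq : ∀ p ∈ H, Convex ℝ {q | q ∈ H ∧ F q ≤ F p})
    (hinv : ∀ γ ∈ K, ∀ p ∈ H, ∃ q ∈ H, ∀ r ∈ H, F r ≤ F q → F (hol γ r) ≤ F p) :
    ∀ p ∈ H, ∀ q ∈ H, F p = F q := by
  classical
  have hle : ∀ p ∈ H, ∀ q ∈ H, F q ≤ F p := by
    intro p hp q hqH
    have h1 := filter_core D m hKG hK
      (𝓕 := {S | ∃ γ ∈ K, ∃ p ∈ H, hol γ '' {q | q ∈ H ∧ F q ≤ F p} = S})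
      (by
        rintro _ ⟨γ, -, p, hp, rfl⟩
        exact (hq p hp).affine_image (hol γ : E →ᵃ[ℝ] E))
      (by
        rintro _ ⟨γ, hγ, p, hp, rfl⟩ _ ⟨q, hq, rfl⟩
        exact m.inv γ (hKG hγ) q hq.1)
      (by
        rintro γ hγ _ ⟨δ, hδ, p, hp, rfl⟩
        refine ⟨γ * δ, K.mul_mem hγ hδ, p, hp, ?_⟩
        rw [image_image, map_mul]
        rfl)
      (by
        intro s hs
        have h2 : ∀ S ∈ s, ∃ q ∈ H, {r | r ∈ H ∧ F r ≤ F q} ⊆ S := by
          intro S hS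
          obtain ⟨γ, hγ, p, hp, rfl⟩ := hs hS
          obtain ⟨q, hq, h⟩ := hinv γ⁻¹ (K.inv_mem hγ) p hp
          refine ⟨q, hq, ?_⟩
          rintro r ⟨hr, hrq⟩
          exact ⟨hol γ⁻¹ r, ⟨m.inv _ (G.inv_mem (hKG hγ)) r hr, h r hr hrq⟩, hol_apply_inv γ r⟩
        choose! c hcH hcS using h2
        rcases s.eq_empty_or_nonempty with h | h
        · refine ⟨dev x₀, m.mem, ?_⟩
          rw [h]
          simp
        · obtain ⟨S, hS, hmin⟩ := s.exists_min_image (fun S => F (c S)) h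
          exact ⟨c S, hcH S hS, fun T hT => hcS T hT ⟨hcH S hS, hmin T hT⟩⟩)
      {q | q ∈ H ∧ F q ≤ F p} ⟨1, K.one_mem, p, hp, by
        rw [map_one]
        exact image_id _⟩
    have h2 : q ∈ {q | q ∈ H ∧ F q ≤ F p} := by rw [h1]; exact hqH
    exact h2.2
  exact fun p hp q hqH => le_antisymm (hle q hqH p hp) (hle p hp q hqH)

end Pool.Agent.L5helper76.CF
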